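import Mathlib
import Pool.Agent.X78.SP7

set_option autoImplicit false

/-!
# Initial degree of symbolic powers of `n + 3` points in linearly general position, `n` odd

For every odd `n`, every set `Z` of `n + 3` points of `ℙ^n` in linearly general position over a
field of characteristic zero and every `k ≥ 1`,
`α(I_Z^{(k)}) = ⌈(n+1)(n+3)k / (n²+2n-1)⌉`.
-/

namespace Pool.Agent.Results.MP_ec1cce_ag.OddInitialDegree

open MvPolynomial

universe u

variable {K : Type u} [Field K] {n : ℕ}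

/-- The homogeneous ideal of the point `P` of `ℙ^n`, in `K[x_0, …, x_n]`: the ideal generated by
all forms that vanish at `P`. -/
noncomputable def pointIdeal (P : Projectivization K (Fin (n + 1) → K)) :
    Ideal (MvPolynomial (Fin (n + 1)) K) :=
  Ideal.span {g | ∃ e, g.IsHomogeneous e ∧ MvPolynomial.eval P.rep g = 0}

/-- `Z` is in linearly general position: no `n + 1` of its points lie on a hyperplane
(the zero set of a nonzero linear form `φ`). -/
def LinearlyGeneralPosition (Z : Finset (Projectivization K (Fin (n + 1) → K))) : Prop :=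
  ∀ T ⊆ Z, T.card = n + 1 → ¬ ∃ φ : (Fin (n + 1) → K) →ₗ[K] K, φ ≠ 0 ∧ ∀ P ∈ T, φ P.rep = 0

/-- The `k`-th symbolic power of `I_Z`: the intersection of the `k`-th powers of the ideals of
the points of `Z`. -/
noncomputable def symbolicPower (Z : Finset (Projectivization K (Fin (n + 1) → K))) (k : ℕ) :
    Ideal (MvPolynomial (Fin (n + 1)) K) :=
  ⨅ P ∈ Z, pointIdeal P ^ k

/-- The degrees of the nonzero homogeneous elements of an ideal. -/
def degrees (I : Ideal (MvPolynomial (Fin (n + 1)) K)) : Set ℕ :=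
  {d | ∃ F ∈ I, F ≠ 0 ∧ F.IsHomogeneous d}

/-- The initial degree `α(I)`: the least degree of a nonzero homogeneous element of `I`. -/
noncomputable def initialDegree (I : Ideal (MvPolynomial (Fin (n + 1)) K)) : ℕ :=
  sInf (degrees I)

theorem lgp_of {l : ℕ} {Z : Finset (Projectivization K (Fin (2 * l + 1 + 1) → K))}
    (hZ : LinearlyGeneralPosition Z)
    (e : Fin (2 * l + 2 + 2) → Projectivization K (Fin (2 * l + 1 + 1) → K))
    (he : Function.Injective e) (heZ : ∀ z, e z ∈ Z) :
    SymP.LGP (N := 2 * l + 2) (fun z => (e z).rep) := by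
  classical
  intro σ hσ
  by_contra hli
  have hlt : Submodule.span K (Set.range (fun i => (e (σ i)).rep)) < ⊤ := by
    rw [lt_top_iff_ne_top]
    intro h
    apply hli
    exact linearIndependent_of_top_le_span_of_card_eq_finrank h.ge (by simp)
  obtain ⟨φ, hφ, hle⟩ := Submodule.exists_le_ker_of_lt_top _ hlt
  apply hZ (Finset.univ.image (fun i => e (σ i)))
  · intro P hP
    obtain ⟨i, -, rfl⟩ := Finset.mem_image.1 hP
    exact heZ _
  · rw [Finset.card_image_of_injective (f := fun i => e (σ i)) _ (fun a b h => hσ (he h)),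
      Finset.card_univ, Fintype.card_fin]
  · refine ⟨φ, hφ, ?_⟩
    intro P hP
    obtain ⟨i, -, rfl⟩ := Finset.mem_image.1 hP
    exact hle (Submodule.subset_span ⟨i, rfl⟩)

/-- Main result: over a field of characteristic zero, for odd `n`, every set `Z` of `n + 3` points
of `ℙ^n` in linearly general position and every `k ≥ 1`, the symbolic power `I_Z^{(k)}` contains
nonzero forms and its initial degree is `⌈(n+1)(n+3)k/(n²+2n-1)⌉`. -/
theorem result [CharZero K] (hn : Odd n)
    (Z : Finset (Projectivization K (Fin (n + 1) → K))) (hcard : Z.card = n + 3)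
    (hZ : LinearlyGeneralPosition Z) (k : ℕ) (hk : 1 ≤ k) :
    (degrees (symbolicPower Z k)).Nonempty ∧ initialDegree (symbolicPower Z k) =
      ⌈((n + 1) * (n + 3) * k : ℚ) / (n ^ 2 + 2 * n - 1)⌉₊ := by
  obtain ⟨l, rfl⟩ := hn
  let e : Fin (2 * l + 2 + 2) ≃ Z := (Z.equivFinOfCardEq hcard).symm
  have hlgp := lgp_of hZ (fun z => (e z).1) (fun a b h => e.injective (Subtype.ext h))
    (fun z => (e z).2)
  have hmem : ∀ F : MvPolynomial (Fin (2 * l + 1 + 1)) K, F ∈ symbolicPower Z k ↔
      ∀ z, F ∈ SymP.pointIdeal (e z).1.rep ^ k := by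
    intro F
    simp only [symbolicPower, Ideal.mem_iInf]
    constructor
    · intro h z
      exact h _ (e z).2
    · intro h P hP
      have := h (e.symm ⟨P, hP⟩)
      rw [Equiv.apply_symm_apply] at this
      exact this
  have hceil : ∀ d : ℕ, ((((2 * l + 1 : ℕ) : ℚ) + 1) * (((2 * l + 1 : ℕ) : ℚ) + 3) * k) /
      (((2 * l + 1 : ℕ) : ℚ) ^ 2 + 2 * ((2 * l + 1 : ℕ) : ℚ) - 1) ≤ d ↔
      (l + 1) * (2 * l + 4) * k ≤ (2 * l ^ 2 + 4 * l + 1) * d := by
    intro d
    have h0 : (0 : ℚ) ≤ l := Nat.cast_nonneg l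
    have hpos : (0 : ℚ) < ((2 * l + 1 : ℕ) : ℚ) ^ 2 + 2 * ((2 * l + 1 : ℕ) : ℚ) - 1 := by
      push_cast
      nlinarith
    rw [div_le_iff₀ hpos]
    rw [← Nat.cast_le (α := ℚ)]
    push_cast
    constructor <;> intro h <;> nlinarith
  set v := ⌈((((2 * l + 1 : ℕ) : ℚ) + 1) * (((2 * l + 1 : ℕ) : ℚ) + 3) * k) /
      (((2 * l + 1 : ℕ) : ℚ) ^ 2 + 2 * ((2 * l + 1 : ℕ) : ℚ) - 1)⌉₊ with hv
  have hv1 : (l + 1) * (2 * l + 4) * k ≤ (2 * l ^ 2 + 4 * l + 1) * v :=
    (hceil v).1 (Nat.le_ceil _)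
  have hvpos : 1 ≤ v := by
    rcases Nat.eq_zero_or_pos v with h | h
    · rw [h, mul_zero] at hv1
      have : 0 < (l + 1) * (2 * l + 4) * k := by positivity
      omega
    · exact h
  have hleast : IsLeast (degrees (symbolicPower Z k)) v := by
    constructor
    · obtain ⟨F, h1, h2, h3⟩ := SymP.upper hlgp hvpos hv1
      exact ⟨F, (hmem F).2 h3, h1, h2⟩
    · rintro d ⟨F, h1, h2, h3⟩
      refine Nat.ceil_le.2 ((hceil d).2 ?_)
      exact SymP.lower hlgp h3 h2 (fun z => SymP.ord_of_mem ((hmem F).1 h1 z))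
  exact ⟨⟨v, hleast.1⟩, hleast.csInf_eq⟩

end Pool.Agent.Results.MP_ec1cce_ag.OddInitialDegree
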